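import Pool.Agent.N929.EX.Stm

/-!
# Bumps of a walk as unit squares
-/

set_option autoImplicit false
set_option linter.unusedVariables false

namespace Pool.Agent.N457.EX

open Pool.Agent.H976R2 Pool.Agent.H976R2.Dir Finset Pool.Agent.N929.EX
open scoped Classical

noncomputable section

/-- the square of a bump -/
def qq (w : List Dir) (i : ℕ) : ℤ × ℤ :=
  (min (Lip.PP w i).1 (Lip.PP w (i + 2)).1, min (Lip.PP w i).2 (Lip.PP w (i + 2)).2)

/-- the corners of the square -/
lemma corners (e d : Dir) (h : perp e d) (x v : ℤ × ℤ) :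
    Cn (min x.1 (x + Lip.dv e + Lip.dv d).1, min x.2 (x + Lip.dv e + Lip.dv d).2) v ↔
      (v = x ∨ v = x + Lip.dv e ∨ v = x + Lip.dv e + Lip.dv d ∨ v = x + Lip.dv d) := by
  obtain ⟨a, b⟩ := x
  obtain ⟨s, t⟩ := v
  have key : ∀ a b : ℤ, (min a (a + 1) = a ∧ min a (a + -1) = a - 1) := fun a b =>
    ⟨min_eq_left (by omega), (min_eq_right (by omega)).trans (by omega)⟩
  unfold Cn
  cases e <;> cases d <;>
    simp only [perp, dx, dy] at h <;>
    simp only [Lip.dv, dx, dy, Prod.mk_add_mk, Prod.mk.injEq] at * <;>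
    first
    | (exfalso; omega)
    | (simp only [add_zero]
       rw [min_def, min_def]
       split_ifs <;> omega)

lemma pos_four (w : List Dir) (i : ℕ) (hi : i ∈ bumps w) :
    Lip.PP w (i + 1) = Lip.PP w i + Lip.dv (lt w i) ∧
    Lip.PP w (i + 2) = Lip.PP w i + Lip.dv (lt w i) + Lip.dv (lt w (i + 1)) ∧
    Lip.PP w (i + 3) = Lip.PP w i + Lip.dv (lt w (i + 1)) := by
  obtain ⟨h1, h2, h3⟩ := (Lip.mem_bumps w i).1 hi
  have e1 := Lip.PP_succ w i (by omega)
  have e2 := Lip.PP_succ w (i + 1) (by omega)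
  have e3 := Lip.PP_succ w (i + 2) h1
  refine ⟨e1, by rw [e2, e1], ?_⟩
  rw [e3, e2, e1, h2]
  have h4 : Lip.dv (lt w i) + Lip.dv (opp (lt w i)) = 0 := by
    unfold Lip.dv
    rw [dx_opp, dy_opp, Prod.mk_add_mk, add_neg_cancel, add_neg_cancel]
    rfl
  calc Lip.PP w i + Lip.dv (lt w i) + Lip.dv (lt w (i + 1)) + Lip.dv (opp (lt w i)) =
      Lip.PP w i + Lip.dv (lt w (i + 1)) + (Lip.dv (lt w i) + Lip.dv (opp (lt w i))) := by abel
    _ = _ := by rw [h4, add_zero]

lemma at_bump {w : List Dir} (hw : Saw w) {i : ℕ} (hi : i ∈ bumps w) : At w (qq w i) i 3 := by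
  obtain ⟨h1, h2, h3⟩ := (Lip.mem_bumps w i).1 hi
  obtain ⟨e1, e2, e3⟩ := pos_four w i hi
  refine ⟨by omega, fun j hj => ?_⟩
  unfold qq
  rw [e2, corners _ _ h3, ← e2, ← e1, ← e3]
  constructor
  · rintro (h | h | h | h)
    · have := Lip.PP_inj hw hj (by omega) h
      omega
    · have := Lip.PP_inj hw hj (by omega) h
      omega
    · have := Lip.PP_inj hw hj (by omega) h
      omega
    · have := Lip.PP_inj hw hj (by omega) h
      omega
  · rintro ⟨h4, h5⟩
    obtain rfl | rfl | rfl | rfl : j = i ∨ j = i + 1 ∨ j = i + 2 ∨ j = i + 3 := by omega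
    · exact Or.inl rfl
    · exact Or.inr (Or.inl rfl)
    · exact Or.inr (Or.inr (Or.inl rfl))
    · exact Or.inr (Or.inr (Or.inr rfl))

lemma at_inj {w : List Dir} {p : ℤ × ℤ} {k k' : ℕ} (h : At w p k 3) (h' : At w p k' 3) :
    k = k' := by
  have h1 := (h'.2 k (by have := h.1; omega)).1 ((h.2 k (by have := h.1; omega)).2 ⟨le_rfl, by omega⟩)
  have h2 := (h.2 k' (by have := h'.1; omega)).1
    ((h'.2 k' (by have := h'.1; omega)).2 ⟨le_rfl, by omega⟩)
  omega

lemma PP_le (w : List Dir) (j : ℕ) (hj : j ≤ w.length) :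
    |(Lip.PP w j).1| ≤ j ∧ |(Lip.PP w j).2| ≤ j := by
  induction j with
  | zero => simp [Lip.PP]
  | succ j ih =>
    have ih' := ih (by omega)
    rw [Lip.PP_succ w j (by omega)]
    have h1 : |dx (lt w j)| ≤ 1 ∧ |dy (lt w j)| ≤ 1 := by
      cases lt w j <;> simp [dx, dy]
    unfold Lip.dv
    rw [Prod.fst_add, Prod.snd_add]
    refine ⟨(abs_add_le _ _).trans ?_, (abs_add_le _ _).trans ?_⟩
    · push_cast
      exact add_le_add ih'.1 h1.1
    · push_cast
      exact add_le_add ih'.2 h1.2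

lemma qq_le (w : List Dir) (i : ℕ) (hi : i + 2 ≤ w.length) :
    |(qq w i).1| ≤ w.length ∧ |(qq w i).2| ≤ w.length := by
  have h1 := PP_le w i (by omega)
  have h2 := PP_le w (i + 2) hi
  have h3 : ((i + 2 : ℕ) : ℤ) ≤ (w.length : ℤ) := by exact_mod_cast hi
  have h4 : ((i : ℕ) : ℤ) ≤ (w.length : ℤ) := by
    have : i ≤ w.length := by omega
    exact_mod_cast this
  unfold qq
  rw [abs_le, abs_le] at h1 h2
  rw [abs_le, abs_le]
  refine ⟨⟨le_min (by linarith [h1.1.1]) (by linarith [h2.1.1]),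
    (min_le_left _ _).trans (by linarith [h1.1.2])⟩,
    ⟨le_min (by linarith [h1.2.1]) (by linarith [h2.2.1]),
    (min_le_left _ _).trans (by linarith [h1.2.2])⟩⟩

/-- PLQ: the bumps of a walk as unit squares -/
theorem plq : S_PLQ := by
  intro n w T hw h12 h2n
  obtain ⟨hlen, hsaw⟩ := mem_SW.1 hw
  let a : Fin 3 → ℕ := ![0, T.1 + 1, T.2 + 1]
  let r : Fin 3 → ℕ := ![n - T.1 + 1, n - T.2 + 1, 0]
  let B : Fin 3 → Finset ℕ := fun s =>
    (bumps w).filter (fun i => a s ≤ i ∧ i + 2 + r s < w.length)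
  have hcard : ∀ s, ((B s).image (qq w)).card = (B s).card := by
    intro s
    refine card_image_of_injOn ?_
    intro i hi i' hi' h
    have h1 := at_bump hsaw (mem_filter.1 hi).1
    have h2 := at_bump hsaw (mem_filter.1 hi').1
    have h' : qq w i = qq w i' := h
    rw [← h'] at h2
    exact at_inj h1 h2
  have hIn : ∀ s, ∀ i ∈ B s, In s T i 3 := by
    intro s i hi
    obtain ⟨-, h1, h2⟩ := mem_filter.1 hi
    rw [hlen] at h2
    fin_cases s
    · left
      refine ⟨rfl, ?_⟩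
      have h3 : r 0 = n - T.1 + 1 := rfl
      change i + 2 + r 0 < n at h2
      rw [h3] at h2
      omega
    · right
      left
      have h3 : r 1 = n - T.2 + 1 := rfl
      have h4 : a 1 = T.1 + 1 := rfl
      change i + 2 + r 1 < n at h2
      change a 1 ≤ i at h1
      rw [h3] at h2
      rw [h4] at h1
      exact ⟨rfl, by omega, by omega⟩
    · right
      right
      have h4 : a 2 = T.2 + 1 := rfl
      change a 2 ≤ i at h1
      rw [h4] at h1
      exact ⟨rfl, by omega⟩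
  refine ⟨fun s => (B s).image (qq w), fun s p hp => ?_, fun s p hp => ?_, ?_, ?_, ?_⟩
  · obtain ⟨i, hi, rfl⟩ := mem_image.1 hp
    have h1 := ((Lip.mem_bumps w i).1 (mem_filter.1 hi).1).1
    have h2 := qq_le w i (by omega)
    rw [hlen] at h2
    exact ⟨by linarith [h2.1], by linarith [h2.2]⟩
  · obtain ⟨i, hi, rfl⟩ := mem_image.1 hp
    exact ⟨i, at_bump hsaw (mem_filter.1 hi).1, hIn s i hi⟩
  · exact (hcard 0).ge
  · exact (hcard 1).ge
  · exact (hcard 2).ge

end

end Pool.Agent.N457.EX
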